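import Pool.Agent.Q8.PG.Pieces

/-!
The generating set and the decomposition of its words.
-/

namespace Pool.Agent.Q8.PG

open FreeGroup

variable {k : ℕ}

/-- the exponent on the left -/
def lf (M : ℕ) : Fin k × Bool → ℤ
  | (i, true) => (2 * (i : ℤ) + 1) * M
  | (i, false) => -((2 * (i : ℤ) + 2) * M)

/-- the exponent on the right -/
def rg (M : ℕ) : Fin k × Bool → ℤ
  | (i, true) => (2 * (i : ℤ) + 2) * M
  | (i, false) => -((2 * (i : ℤ) + 1) * M)

/-- the generators -/
def gen (i0 i1 : Fin k) (V : List (Le k)) (M : ℕ) : Option (Fin k) → FreeGroup (Fin k)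
  | none => mk V
  | some i => mk V ^ lf M (i, true) * (mk (Yw i0 i1 i true) * mk V ^ rg M (i, true))

/-- the generators and their inverses -/
def sv (i0 i1 : Fin k) (V : List (Le k)) (M : ℕ) (p : Option (Fin k) × Bool) :
    FreeGroup (Fin k) :=
  if p.2 then gen i0 i1 V M p.1 else (gen i0 i1 V M p.1)⁻¹

variable {i0 i1 : Fin k} {V : List (Le k)} {M : ℕ}

lemma mk_Yw_not (i : Fin k) : (mk (Yw i0 i1 i true))⁻¹ = mk (Yw i0 i1 i false) := by
  rw [inv_mk]
  unfold Yw
  split <;> simp [invRev]

lemma sv_some (i : Fin k) (b : Bool) : sv i0 i1 V M (some i, b) =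
    mk V ^ lf M (i, b) * (mk (Yw i0 i1 i b) * mk V ^ rg M (i, b)) := by
  cases b
  · simp only [sv, gen, Bool.false_eq_true, if_false]
    rw [mul_inv_rev, mul_inv_rev, mk_Yw_not, ← zpow_neg, ← zpow_neg, mul_assoc]
    rfl
  · simp [sv, gen]

lemma sv_none_true : sv i0 i1 V M (none, true) = mk V := by simp [sv, gen]

lemma sv_none_false : sv i0 i1 V M (none, false) = (mk V)⁻¹ := by simp [sv, gen]

lemma arith {x y : Fin k × Bool} {c : ℤ} (hM : 0 < M) (h : rg M x + (c + lf M y) = 0) :
    (c = 0 → y = (x.1, !x.2)) ∧ (c ≠ 0 → (M : ℤ) ≤ |c|) := by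
  obtain ⟨i, b⟩ := x
  obtain ⟨j, b'⟩ := y
  have hM' : (0 : ℤ) < M := by exact_mod_cast hM
  have key : ∃ t : ℤ, c = t * M ∧ (t = 0 → (j, b') = (i, !b)) := by
    cases b <;> cases b' <;> simp only [rg, lf] at h
    · refine ⟨(2 * i + 1) + (2 * j + 2), by linear_combination h, ?_⟩
      intro h0; omega
    · refine ⟨(2 * i + 1) - (2 * j + 1), by linear_combination h, ?_⟩
      intro h0
      have : (i : ℤ) = j := by linarith
      have : i = j := by ext; exact_mod_cast this
      simp [this]
    · refine ⟨-(2 * i + 2) + (2 * j + 2), by linear_combination h, ?_⟩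
      intro h0
      have : (i : ℤ) = j := by linarith
      have : i = j := by ext; exact_mod_cast this
      simp [this]
    · refine ⟨-(2 * i + 2) - (2 * j + 1), by linear_combination h, ?_⟩
      intro h0; omega
  obtain ⟨t, ht, ht0⟩ := key
  refine ⟨fun hc => ?_, fun hc => ?_⟩
  · apply ht0
    rw [hc] at ht
    rcases mul_eq_zero.mp ht.symm with h | h
    · exact h
    · exact absurd h hM'.ne'
  · have h1 : t ≠ 0 := by rintro rfl; simp at ht; exact hc ht
    rw [ht, abs_mul, abs_of_pos hM']
    have : 1 ≤ |t| := Int.one_le_abs h1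
    nlinarith

lemma rg_ne (hM : 0 < M) (x : Fin k × Bool) {c : ℤ} (h : rg M x + c = 0) : (M : ℤ) ≤ |c| := by
  obtain ⟨i, b⟩ := x
  have hM' : (0 : ℤ) < M := by exact_mod_cast hM
  have hi : (0 : ℤ) ≤ (i : ℤ) := by positivity
  cases b
  · have : c = (2 * (i : ℤ) + 1) * M := by simp only [rg] at h; linear_combination h
    rw [this, abs_of_nonneg (by positivity)]
    nlinarith
  · have : c = -((2 * (i : ℤ) + 2) * M) := by simp only [rg] at h; linear_combination h
    rw [this, abs_neg, abs_of_nonneg (by positivity)]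
    nlinarith

lemma mk_pow (n : ℕ) (V : List (Le k)) : mk V ^ n = mk (List.replicate n V).flatten := by
  induction n with
  | zero => rw [pow_zero]; rfl
  | succ n ih => rw [pow_succ', ih, mul_mk, List.replicate_succ, List.flatten_cons]

lemma zpow_flat (e : ℤ) : ∃ b, mk V ^ e =
    mk (flat i0 i1 V (List.replicate e.natAbs (none, b))) := by
  rcases Int.natAbs_eq e with h | h
  · refine ⟨true, ?_⟩
    generalize e.natAbs = m at h
    subst h
    rw [zpow_natCast, mk_pow]
    simp [flat, pw]
  · refine ⟨false, ?_⟩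
    generalize e.natAbs = m at h
    subst h
    rw [zpow_neg, zpow_natCast, ← inv_pow, inv_mk, mk_pow]
    simp [flat, pw]

/-- decomposition starting with a short word -/
def DecY (i0 i1 : Fin k) (V : List (Le k)) (n : ℕ) (x : FreeGroup (Fin k)) : Prop :=
  ∃ ps h, x = mk (flat i0 i1 V ps) * h ∧ Good ps ∧ (∀ p ∈ ps.head?, p.1 ≠ none) ∧
    Cov (Sh V) n h.toWord

lemma good_replicate_append {n : ℕ} {b : Bool} {ps : List (Option (Fin k) × Bool)}
    (hg : Good ps) (hh : ∀ p ∈ ps.head?, p.1 ≠ none) :
    Good (List.replicate n (none, b) ++ ps) := by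
  unfold Good
  rw [List.isChain_append]
  refine ⟨List.isChain_replicate_of_rel _ rfl, hg, ?_⟩
  intro x hx y hy
  have hx' : x = (none, b) := by
    have : x ∈ List.replicate n ((none : Option (Fin k)), b) := List.mem_of_mem_getLast? hx
    exact List.eq_of_mem_replicate this
  have hy' := hh y hy
  subst hx'
  obtain ⟨o, b'⟩ := y
  cases o with
  | none => exact absurd rfl hy'
  | some j => trivial

lemma cov_mul (hV : VOK i0 V) (h01 : i1 ≠ i0) {n : ℕ} {ps : List (Option (Fin k) × Bool)}
    {h : FreeGroup (Fin k)} (hg : Good ps) (hh : Cov (Sh V) n h.toWord) :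
    Cov (Sh V) (n + 1) (mk (flat i0 i1 V ps) * h).toWord := by
  obtain ⟨a, b, c, h1, h2, h3⟩ := toWord_mul_split (x := mk (flat i0 i1 V ps)) (y := h)
  rw [h3]
  rw [toWord_mk, (flat_reduced hV h01 hg).reduce_eq] at h1
  refine ⟨a, c, rfl, ?_, ?_⟩
  · exact sh_infix a (flat i0 i1 V ps) ⟨[], b, by rw [h1]; simp⟩ (sh_flat hV hg)
  · rw [h2] at hh
    exact cov_suffix sh_nil sh_infix hh

lemma decY_one : DecY i0 i1 V 0 1 :=
  ⟨[], 1, by rw [mul_one]; rfl, by simp [Good], by simp, rfl⟩

lemma decY_step (hV : VOK i0 V) (h01 : i1 ≠ i0) {n : ℕ} {x : FreeGroup (Fin k)}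
    (h : DecY i0 i1 V n x) (i : Fin k) (b : Bool) :
    DecY i0 i1 V (n + 1) (mk (Yw i0 i1 i b) * x) := by
  obtain ⟨ps, y, rfl, hg, hh, hc⟩ := h
  refine ⟨[(some i, b)], mk (flat i0 i1 V ps) * y, ?_, ?_, ?_, cov_mul hV h01 hg hc⟩
  · simp [flat, pw]
  · simp [Good]
  · simp

lemma decY_step' {n : ℕ} {x : FreeGroup (Fin k)}
    (h : DecY i0 i1 V n x) (i : Fin k) (b : Bool) {e : ℤ} (he : e ≠ 0) :
    DecY i0 i1 V n (mk (Yw i0 i1 i b) * (mk V ^ e * x)) := by
  obtain ⟨ps, y, rfl, hg, hh, hc⟩ := h
  obtain ⟨b', hb'⟩ := zpow_flat (i0 := i0) (i1 := i1) (V := V) e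
  refine ⟨(some i, b) :: (List.replicate e.natAbs (none, b') ++ ps), y, ?_, ?_, ?_, hc⟩
  · rw [hb', flat_cons, flat_append, ← mul_mk, ← mul_mk]
    simp only [pw]
    group
  · unfold Good
    rw [List.isChain_cons]
    refine ⟨?_, good_replicate_append hg hh⟩
    intro z hz
    obtain ⟨m, hm⟩ : ∃ m, e.natAbs = m + 1 := ⟨e.natAbs - 1, by omega⟩
    rw [hm, List.replicate_succ, List.cons_append, List.head?_cons] at hz
    simp at hz
    subst hz
    trivial
  · simp

lemma decY_final (hV : VOK i0 V) (h01 : i1 ≠ i0) {n : ℕ} {x : FreeGroup (Fin k)}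
    (h : DecY i0 i1 V n x) (e : ℤ) : Cov (Sh V) (n + 1) (mk V ^ e * x).toWord := by
  obtain ⟨ps, y, rfl, hg, hh, hc⟩ := h
  obtain ⟨b', hb'⟩ := zpow_flat (i0 := i0) (i1 := i1) (V := V) e
  rw [hb', ← mul_assoc, mul_mk, ← flat_append]
  exact cov_mul hV h01 (good_replicate_append hg hh) hc

/-- the exponent of the head -/
def lfo (M : ℕ) : Option (Fin k × Bool) → ℤ
  | none => 0
  | some y => lf M y

/-- product of a word in the generators -/
def ev (i0 i1 : Fin k) (V : List (Le k)) (M : ℕ) (l : List (Option (Fin k) × Bool)) :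
    FreeGroup (Fin k) := (l.map (sv i0 i1 V M)).prod

lemma ev_cons (p : Option (Fin k) × Bool) (l : List (Option (Fin k) × Bool)) :
    ev i0 i1 V M (p :: l) = sv i0 i1 V M p * ev i0 i1 V M l := by simp [ev]

lemma decomp (hV : VOK i0 V) (h01 : i1 ≠ i0) (hM : 0 < M)
    (l : List (Option (Fin k) × Bool)) (hl : IsReduced l) :
    ∃ (c : ℤ) (R : FreeGroup (Fin k)) (n : ℕ) (hd : Option (Fin k × Bool)),
      ev i0 i1 V M l = mk V ^ (c + lfo M hd) * R ∧ (M : ℤ) * n + |c| ≤ l.length ∧
      DecY i0 i1 V n R ∧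
      (c = 0 → l.head? = hd.map (fun y => (some y.1, y.2))) ∧
      (0 < c → l.head? = some (none, true)) ∧ (c < 0 → l.head? = some (none, false)) := by
  induction l with
  | nil =>
    refine ⟨0, 1, 0, none, ?_, by simp, decY_one, by simp, by simp, by simp⟩
    simp [ev, lfo]
  | cons p l ih =>
    have hl' : IsReduced l := red_mono hl ⟨[p], [], by simp⟩
    have hpl : ∀ q ∈ l.head?, p.1 = q.1 → p.2 = q.2 := (List.isChain_cons.mp hl).1
    obtain ⟨c, R, n, hd, h1, h2, h3, h4, h5, h6⟩ := ih hl'
    obtain ⟨o, b⟩ := p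
    cases o with
    | none =>
      cases b
      · -- v⁻¹
        have hc : c ≤ 0 := by
          by_contra hc
          push Not at hc
          have := hpl _ (h5 hc) rfl
          simp at this
        refine ⟨c - 1, R, n, hd, ?_, ?_, h3, ?_, ?_, ?_⟩
        · rw [ev_cons, h1, sv_none_false, show c - 1 + lfo M hd = -1 + (c + lfo M hd) by ring,
            zpow_add (mk V) (-1), zpow_neg_one, mul_assoc]
        · rw [abs_of_neg (by linarith : c - 1 < 0)]
          rw [abs_of_nonpos hc] at h2
          push_cast [List.length_cons]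
          linarith
        · intro h; omega
        · intro h; omega
        · intro _; rfl
      · have hc : 0 ≤ c := by
          by_contra hc
          push Not at hc
          have := hpl _ (h6 hc) rfl
          simp at this
        refine ⟨c + 1, R, n, hd, ?_, ?_, h3, ?_, ?_, ?_⟩
        · rw [ev_cons, h1, sv_none_true, show c + 1 + lfo M hd = 1 + (c + lfo M hd) by ring,
            zpow_add (mk V) 1, zpow_one, mul_assoc]
        · rw [abs_of_nonneg (by linarith : 0 ≤ c + 1)]
          rw [abs_of_nonneg hc] at h2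
          push_cast [List.length_cons]
          linarith
        · intro h; omega
        · intro _; rfl
        · intro h; omega
    | some i =>
      have hev : ev i0 i1 V M ((some i, b) :: l) = mk V ^ lf M (i, b) *
          (mk (Yw i0 i1 i b) * (mk V ^ (rg M (i, b) + (c + lfo M hd)) * R)) := by
        rw [ev_cons, h1, sv_some, zpow_add (mk V) (rg M (i, b)) (c + lfo M hd)]
        group
      by_cases he : rg M (i, b) + (c + lfo M hd) = 0
      · refine ⟨0, mk (Yw i0 i1 i b) * R, n + 1, some (i, b), ?_, ?_, decY_step hV h01 h3 i b,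
          by simp, by simp, by simp⟩
        · rw [hev, he, zpow_zero, one_mul]
          simp [lfo]
        · have hMc : (M : ℤ) ≤ |c| := by
            cases hd with
            | none =>
              simp only [lfo, add_zero] at he
              exact rg_ne hM (i, b) he
            | some y =>
              obtain ⟨e1, e2⟩ := arith hM he
              apply e2
              intro hc
              have h7 := h4 hc
              rw [e1 hc] at h7
              have := hpl (some i, !b) (by rw [h7]; rfl) rfl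
              simp at this
          push_cast [List.length_cons]
          rw [abs_zero, mul_add, mul_one]
          linarith
      · refine ⟨0, mk (Yw i0 i1 i b) * (mk V ^ (rg M (i, b) + (c + lfo M hd)) * R), n,
          some (i, b), ?_, ?_, decY_step' h3 i b he, by simp, by simp, by simp⟩
        · rw [hev]
          simp [lfo]
        · push_cast [List.length_cons]
          rw [abs_zero]
          have := abs_nonneg c
          linarith

/-- a product of `N` generators is covered by `N / M + 1` words -/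
lemma cov_ev (hV : VOK i0 V) (h01 : i1 ≠ i0) (hM : 0 < M)
    (l : List (Option (Fin k) × Bool)) (hl : IsReduced l) :
    Cov (Sh V) (l.length / M + 1) (ev i0 i1 V M l).toWord := by
  obtain ⟨c, R, n, hd, h1, h2, h3, -⟩ := decomp hV h01 hM l hl
  rw [h1]
  refine cov_mono sh_nil ?_ (decY_final hV h01 h3 _)
  have h4 : (M : ℤ) * n ≤ l.length := by
    have := abs_nonneg c
    linarith
  have h5 : M * n ≤ l.length := by exact_mod_cast h4
  have : n ≤ l.length / M := by
    rw [Nat.le_div_iff_mul_le hM, mul_comm]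
    exact h5
  omega

end Pool.Agent.Q8.PG
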