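import Pool.Agent.Q8.PG.Defs
import Pool.Agent.Q8.PG.Gens
import Pool.Agent.Helper385.BlkCV

/-!
Counting primitive conjugacy classes.
-/

namespace Pool.Agent.Q8.PG

open FreeGroup

variable {k : ℕ}

/-! ### primitive elements -/

lemma IsPrimitive.prim {g : FreeGroup (Fin k)} (h : IsPrimitive g) :
    Pool.Agent.Helper385.Blk.Prim g := by
  obtain ⟨ι, b, i, rfl⟩ := h
  let e : ι ≃ Fin k := Equiv.ofFreeGroupEquiv b.repr.symm
  refine ⟨(FreeGroup.freeGroupCongr e.symm).trans b.repr.symm, e i, ?_⟩
  rw [MulEquiv.trans_apply, FreeGroup.freeGroupCongr_apply, FreeGroup.map.of, Equiv.symm_apply_apply]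
  rw [← b.repr_apply_coe i, MulEquiv.symm_apply_apply]

lemma IsPrimitive.conj {g h : FreeGroup (Fin k)} (hg : IsPrimitive g)
    (hc : ConjClasses.mk g = ConjClasses.mk h) : IsPrimitive h := by
  obtain ⟨ι, b, i, rfl⟩ := hg
  rw [ConjClasses.mk_eq_mk_iff_isConj, isConj_iff] at hc
  obtain ⟨u, hu⟩ := hc
  exact ⟨ι, b.map (MulAut.conj u), i, by rw [FreeGroupBasis.map_apply]; exact hu⟩

open Pool.Agent.Helper385.Blk in
/-- a cyclically reduced primitive word avoids `V` and its inverse -/
lemma avoid_of_primitive {i0 : Fin k} {V : List (Le k)} (hV : VOK i0 V) {w : List (Le k)}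
    (hw : IsCyclicallyReduced w) (hp : IsPrimitive (FreeGroup.mk w)) : Avoid V w := by
  have hfull' : ∀ p q : Le k, (p.1 = q.1 → p.2 = q.2) → [p, q] <:+: invRev V := by
    intro p q hpq
    obtain ⟨s, t, h⟩ := hV.full (q.1, !q.2) (p.1, !p.2) (fun h => by
      have := hpq h.symm
      simp [this])
    refine ⟨invRev t, invRev s, ?_⟩
    rw [← h]
    simp [invRev]
  have key : ∀ U : List (Le k), 4 ≤ U.length →
      (∀ p q : Le k, (p.1 = q.1 → p.2 = q.2) → [p, q] <:+: U) → ¬ U <:+: w := by
    intro U hU hfull hUw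
    have hlen := hUw.length_le
    have hchain : List.IsChain (fun p q => q ≠ iv p) (w ++ w.take 1) := by
      have hpq : ∀ p q : Le k, (p.1 = q.1 → p.2 = q.2) → q ≠ iv p := by
        rintro p q h rfl
        have := h rfl
        simp [iv] at this
      rw [List.isChain_append]
      refine ⟨List.IsChain.imp (fun p q => hpq p q) hw.1, ?_, ?_⟩
      · cases w with
        | nil => simp
        | cons x t => simp
      · intro x hx y hy
        apply hpq
        intro h
        refine hw.2 x hx y ?_ h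
        cases w with
        | nil => simp at hy
        | cons z t => simpa using hy
    obtain ⟨a, A, h1, h2, h3, p, q, h4, h5⟩ := CV.cut_vertex w (by omega) hchain hp.prim
    obtain ⟨z, hz⟩ : ∃ z, A z = true := by
      rcases h5 with h | h
      · exact ⟨_, h.2⟩
      · exact ⟨_, h.2⟩
    have hza : z.1 = a.1 → z.2 = a.2 := by
      apply red_of_ne
      intro h
      have : A z = false := by rw [h]; exact h2
      rw [this] at hz
      exact Bool.false_ne_true hz
    have h6 : [z, a] <:+: w ++ w.take 1 :=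
      (hfull z a hza).trans (hUw.trans ⟨[], w.take 1, by simp⟩)
    have h7 := chain_mono h3 h6
    rw [List.isChain_cons_cons] at h7
    rcases h7.1.1 hz with h8 | h8
    · rw [h2] at h8
      exact Bool.false_ne_true h8
    · have := congrArg Prod.snd h8
      simp [iv] at this
  exact ⟨key V hV.len hV.full, key (invRev V) (by rw [invRev_length]; exact hV.len) hfull'⟩

/-! ### the generating set -/

variable {i0 i1 : Fin k} {V : List (Le k)} {M : ℕ}

lemma closure_gen (h01 : i1 ≠ i0) : Subgroup.closure (Set.range (gen i0 i1 V M)) = ⊤ := by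
  set H := Subgroup.closure (Set.range (gen i0 i1 V M)) with hH
  have hV : mk V ∈ H := Subgroup.subset_closure ⟨none, rfl⟩
  have hY : ∀ i, mk (Yw i0 i1 i true) ∈ H := by
    intro i
    have h1 : gen i0 i1 V M (some i) ∈ H := Subgroup.subset_closure ⟨some i, rfl⟩
    have h2 : mk (Yw i0 i1 i true) = (mk V ^ lf M (i, true))⁻¹ * gen i0 i1 V M (some i) *
        (mk V ^ rg M (i, true))⁻¹ := by
      simp only [gen]
      group
    rw [h2]
    exact H.mul_mem (H.mul_mem (H.inv_mem (H.zpow_mem hV _)) h1) (H.inv_mem (H.zpow_mem hV _))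
  have hof : ∀ i, i ≠ i0 → of i ∈ H := by
    intro i hi
    have := hY i
    rw [Yw, if_neg hi] at this
    exact this
  have hall : ∀ i, of i ∈ H := by
    intro i
    by_cases hi : i = i0
    · subst hi
      have h1 := hY i
      rw [Yw, if_pos rfl] at h1
      have h2 : of i = (of i1)⁻¹ * mk [(i1, true), (i, true), (i1, true)] * (of i1)⁻¹ := by
        have : mk [(i1, true), (i, true), (i1, true)] = of i1 * of i * of i1 := rfl
        rw [this]; group
      rw [h2]
      exact H.mul_mem (H.mul_mem (H.inv_mem (hof i1 h01)) h1) (H.inv_mem (hof i1 h01))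
    · exact hof i hi
  rw [eq_top_iff, ← FreeGroup.closure_range_of, Subgroup.closure_le]
  rintro _ ⟨i, rfl⟩
  exact hall i

lemma exists_list_of_closure {G : Type*} [Group G] {S : Set G} (hS : Subgroup.closure S = ⊤)
    (g : G) : ∃ l : List G, (∀ s ∈ l, s ∈ S ∨ s⁻¹ ∈ S) ∧ l.prod = g := by
  have h : g ∈ (Subgroup.closure S).toSubmonoid := by rw [hS]; trivial
  rw [Subgroup.closure_toSubmonoid] at h
  obtain ⟨l, h1, h2⟩ := Submonoid.exists_list_of_mem_closure h
  exact ⟨l, fun s hs => by simpa using h1 s hs, h2⟩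

lemma wordLen_spec {G : Type*} [Group G] {S : Set G} (hS : Subgroup.closure S = ⊤)
    (g : G) : ∃ l : List G, (∀ s ∈ l, s ∈ S ∨ s⁻¹ ∈ S) ∧ l.prod = g ∧ l.length = wordLen S g := by
  obtain ⟨l, h1, h2⟩ := exists_list_of_closure hS g
  exact Nat.sInf_mem (s := {n | ∃ l : List G, (∀ s ∈ l, s ∈ S ∨ s⁻¹ ∈ S) ∧ l.prod = g ∧
    l.length = n}) ⟨l.length, l, h1, h2, rfl⟩

lemma classLen_spec {G : Type*} [Group G] (S : Set G)
    (c : ConjClasses G) : ∃ g, ConjClasses.mk g = c ∧ wordLen S g = classLen S c := by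
  obtain ⟨g, hg⟩ := ConjClasses.exists_rep c
  exact Nat.sInf_mem (s := {n | ∃ g, ConjClasses.mk g = c ∧ wordLen S g = n})
    ⟨wordLen S g, g, hg, rfl⟩

lemma ev_eq_lift (l : List (Option (Fin k) × Bool)) :
    ev i0 i1 V M l = FreeGroup.lift (gen i0 i1 V M) (mk l) := by
  rw [FreeGroup.lift_mk]
  unfold ev
  congr 1
  apply List.map_congr_left
  rintro ⟨o, b⟩ _
  cases b <;> rfl

lemma exists_reduced (h01 : i1 ≠ i0) (g : FreeGroup (Fin k)) :
    ∃ l : List (Option (Fin k) × Bool), IsReduced l ∧
      l.length ≤ wordLen (Set.range (gen i0 i1 V M)) g ∧ ev i0 i1 V M l = g := by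
  obtain ⟨l, h1, h2, h3⟩ := wordLen_spec (closure_gen (V := V) (M := M) h01) g
  have h4 : ∃ l' : List (Option (Fin k) × Bool), l'.map (sv i0 i1 V M) = l := by
    have : ∀ l : List (FreeGroup (Fin k)), (∀ s ∈ l, s ∈ Set.range (gen i0 i1 V M) ∨
        s⁻¹ ∈ Set.range (gen i0 i1 V M)) →
        ∃ l' : List (Option (Fin k) × Bool), l'.map (sv i0 i1 V M) = l := by
      intro l
      induction l with
      | nil => intro _; exact ⟨[], rfl⟩
      | cons s l ih =>
        intro h
        obtain ⟨l', hl'⟩ := ih (fun x hx => h x (List.mem_cons_of_mem _ hx))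
        rcases h s List.mem_cons_self with ⟨o, ho⟩ | ⟨o, ho⟩
        · exact ⟨(o, true) :: l', by rw [List.map_cons, hl']; simp [sv, ho]⟩
        · exact ⟨(o, false) :: l', by rw [List.map_cons, hl']; simp [sv, ho]⟩
    exact this l h1
  obtain ⟨l', rfl⟩ := h4
  refine ⟨reduce l', ?_, ?_, ?_⟩
  · rw [isReduced_iff_reduce_eq, reduce.idem]
  · rw [← h3, List.length_map]
    exact (reduce.red (L := l')).length_le
  · rw [ev_eq_lift, reduce.self, ← ev_eq_lift]
    exact h2

/-- each primitive class of length `N` contains a short word -/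
lemma short_rep (hV : VOK i0 V) (h01 : i1 ≠ i0) (hM : 0 < M) {N : ℕ}
    {c : ConjClasses (FreeGroup (Fin k))}
    (hc : c ∈ primClasses (Set.range (gen i0 i1 V M)) N) :
    ∃ w : List (Le k), w.length ≤ (N / M + 1) * (2 * V.length + 1) ∧
      ConjClasses.mk (mk w) = c := by
  obtain ⟨⟨g, hg, hgc⟩, hN⟩ := hc
  obtain ⟨h, hh, hl⟩ := classLen_spec (Set.range (gen i0 i1 V M)) c
  obtain ⟨l, l1, l2, l3⟩ := exists_reduced (V := V) (M := M) h01 h
  rw [hl, hN] at l2
  have hcov := cov_ev hV h01 hM l l1
  rw [l3] at hcov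
  set w := reduceCyclically h.toWord with hw
  have hconj := reduceCyclically.conj_conjugator_reduceCyclically h.toWord
  have hinf : w <:+: h.toWord := ⟨_, _, hconj⟩
  have hwc : ConjClasses.mk (mk w) = c := by
    rw [← hh, ConjClasses.mk_eq_mk_iff_isConj, isConj_iff]
    refine ⟨mk (reduceCyclically.conjugator h.toWord), ?_⟩
    rw [inv_mk, mul_mk, mul_mk, hconj, mk_toWord]
  have hprim : IsPrimitive (mk w) := hg.conj (hgc.trans hwc.symm)
  have hcr : IsCyclicallyReduced w := reduceCyclically.isCyclicallyReduced isReduced_toWord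
  have hav := avoid_of_primitive hV hcr hprim
  refine ⟨w, ?_, hwc⟩
  have h5 := cov_sh_length (cov_infix sh_nil sh_infix hinf hcov) hav
  refine h5.trans (Nat.mul_le_mul_right _ ?_)
  have := Nat.div_le_div_right (c := M) l2
  omega

lemma encard_le (hV : VOK i0 V) (h01 : i1 ≠ i0) (hM : 0 < M) (N : ℕ) :
    (primClasses (Set.range (gen i0 i1 V M)) N).encard ≤
      (((2 * k + 1) ^ ((N / M + 1) * (2 * V.length + 1)) : ℕ) : ℕ∞) := by
  set K := (N / M + 1) * (2 * V.length + 1) with hK
  have hsub : primClasses (Set.range (gen i0 i1 V M)) N ⊆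
      (fun v : List.Vector (Option (Le k)) K => ConjClasses.mk (mk v.toList.reduceOption)) ''
        Set.univ := by
    intro c hc
    obtain ⟨w, hw, hwc⟩ := short_rep hV h01 hM hc
    refine ⟨⟨w.map some ++ List.replicate (K - w.length) none, ?_⟩, trivial, ?_⟩
    · simp
      omega
    · have : (w.map some ++ List.replicate (K - w.length) none).reduceOption = w := by
        rw [List.reduceOption_append, List.reduceOption_replicate_none, List.append_nil]
        induction w with
        | nil => rfl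
        | cons x t _ => simp [List.reduceOption]
      simp only [List.Vector.toList]
      rw [this, hwc]
  refine (Set.encard_le_encard hsub).trans ((Set.encard_image_le _ _).trans ?_)
  rw [Set.encard_univ, ENat.card_eq_coe_fintype_card]
  have : Fintype.card (List.Vector (Option (Le k)) K) = (2 * k + 1) ^ K := by
    rw [card_vector, Fintype.card_option]
    simp [Le, mul_comm]
  rw [this]

end Pool.Agent.Q8.PG
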