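import Mathlib

/-!
Growth of primitive conjugacy classes: the definitions.
-/

namespace Pool.Agent.Q8.PG

open scoped ENNReal

/-- the word length of `g` over the alphabet `S ∪ S⁻¹` -/
noncomputable def wordLen {G : Type*} [Group G] (S : Set G) (g : G) : ℕ :=
  sInf {n | ∃ l : List G, (∀ s ∈ l, s ∈ S ∨ s⁻¹ ∈ S) ∧ l.prod = g ∧ l.length = n}

/-- the minimal word length in the conjugacy class `c` -/
noncomputable def classLen {G : Type*} [Group G] (S : Set G) (c : ConjClasses G) : ℕ :=
  sInf {n | ∃ g, ConjClasses.mk g = c ∧ wordLen S g = n}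

/-- `g` belongs to a free basis of the free group of rank `k` -/
def IsPrimitive {k : ℕ} (g : FreeGroup (Fin k)) : Prop :=
  ∃ (ι : Type) (b : FreeGroupBasis ι (FreeGroup (Fin k))), g ∈ Set.range b

/-- the conjugacy classes of primitive elements of length `N` -/
def primClasses {k : ℕ} (S : Set (FreeGroup (Fin k))) (N : ℕ) :
    Set (ConjClasses (FreeGroup (Fin k))) :=
  {c | (∃ g, IsPrimitive g ∧ ConjClasses.mk g = c) ∧ classLen S c = N}

/-- the growth rate of the number of primitive conjugacy classes -/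
noncomputable def gamma {k : ℕ} (S : Set (FreeGroup (Fin k))) : ℝ≥0∞ :=
  Filter.limsup (fun N : ℕ => ((primClasses S N).encard : ℝ≥0∞) ^ (1 / (N : ℝ))) Filter.atTop

end Pool.Agent.Q8.PG
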