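import Pool.Agent.Q8.PG.Count

/-!
The infimum of the growth rates of primitive conjugacy classes is `1`.
-/

namespace Pool.Agent.Q8.PG

open FreeGroup Filter Topology
open scoped ENNReal

variable {k : ℕ}

/-! ### the upper bound -/

lemma gamma_le {i0 i1 : Fin k} {V : List (Le k)} {M : ℕ} (hV : VOK i0 V) (h01 : i1 ≠ i0)
    (hM : 0 < M) : gamma (Set.range (gen i0 i1 V M)) ≤
      ENNReal.ofReal (((2 * k + 1 : ℕ) : ℝ) ^ ((2 * (2 * V.length + 1) : ℕ) / (M : ℝ))) := by
  unfold gamma
  refine Filter.limsup_le_of_le (h := ?_)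
  filter_upwards [Filter.eventually_ge_atTop M] with N hN
  have hNpos : 0 < N := lt_of_lt_of_le hM hN
  have h1 := encard_le hV h01 hM N
  set D := 2 * V.length + 1 with hD
  have h2 : ((primClasses (Set.range (gen i0 i1 V M)) N).encard : ℝ≥0∞) ≤
      (((2 * k + 1) ^ ((N / M + 1) * D) : ℕ) : ℝ≥0∞) := by
    have := ENat.toENNReal_le.mpr h1
    simpa using this
  have hq : (1 : ℝ) ≤ ((2 * k + 1 : ℕ) : ℝ) := by
    have : 1 ≤ 2 * k + 1 := by omega
    exact_mod_cast this
  calc ((primClasses (Set.range (gen i0 i1 V M)) N).encard : ℝ≥0∞) ^ (1 / (N : ℝ))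
      ≤ (((2 * k + 1) ^ ((N / M + 1) * D) : ℕ) : ℝ≥0∞) ^ (1 / (N : ℝ)) :=
        ENNReal.rpow_le_rpow h2 (by positivity)
    _ = ENNReal.ofReal ((((2 * k + 1) ^ ((N / M + 1) * D) : ℕ) : ℝ) ^ (1 / (N : ℝ))) := by
        rw [← ENNReal.ofReal_rpow_of_nonneg (by positivity) (by positivity),
          ENNReal.ofReal_natCast]
    _ ≤ _ := by
        apply ENNReal.ofReal_le_ofReal
        rw [Nat.cast_pow, ← Real.rpow_natCast, ← Real.rpow_mul (by positivity)]
        apply Real.rpow_le_rpow_of_exponent_le hq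
        have hNr : (0 : ℝ) < N := by exact_mod_cast hNpos
        have hMr : (0 : ℝ) < M := by exact_mod_cast hM
        rw [mul_one_div, div_le_div_iff₀ hNr hMr]
        have h3 : N / M * M ≤ N := Nat.div_mul_le_self N M
        have h4 : (N / M + 1) * D * M ≤ 2 * D * N := by
          have : (N / M + 1) * M ≤ 2 * N := by
            rw [Nat.add_mul, one_mul]; omega
          calc (N / M + 1) * D * M = ((N / M + 1) * M) * D := by ring
            _ ≤ 2 * N * D := Nat.mul_le_mul_right _ this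
            _ = 2 * D * N := by ring
        exact_mod_cast h4

/-! ### the lower bound -/

/-- the automorphism `x_{i0} ↦ x_{i0} x_{i1}^m` -/
def tr (i0 i1 : Fin k) (m : ℤ) : FreeGroup (Fin k) →* FreeGroup (Fin k) :=
  FreeGroup.lift (fun j => if j = i0 then of i0 * of i1 ^ m else of j)

lemma tr_comp {i0 i1 : Fin k} (h01 : i1 ≠ i0) (m : ℤ) :
    (tr i0 i1 (-m)).comp (tr i0 i1 m) = MonoidHom.id _ := by
  ext j
  simp only [MonoidHom.comp_apply, tr, FreeGroup.lift_apply_of, MonoidHom.id_apply]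
  by_cases hj : j = i0
  · rw [if_pos hj, _root_.map_mul, map_zpow, FreeGroup.lift_apply_of, FreeGroup.lift_apply_of,
      if_pos rfl, if_neg h01, hj, zpow_neg]
    group
  · rw [if_neg hj, FreeGroup.lift_apply_of, if_neg hj]

/-- as an automorphism -/
def trE {i0 i1 : Fin k} (h01 : i1 ≠ i0) (m : ℤ) : FreeGroup (Fin k) ≃* FreeGroup (Fin k) :=
  MonoidHom.toMulEquiv (tr i0 i1 m) (tr i0 i1 (-m)) (tr_comp h01 m) (by
    have := tr_comp h01 (-m)
    rwa [neg_neg] at this)

lemma primitive_tr {i0 i1 : Fin k} (h01 : i1 ≠ i0) (m : ℤ) :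
    IsPrimitive (of i0 * of i1 ^ m : FreeGroup (Fin k)) := by
  refine ⟨Fin k, (FreeGroupBasis.ofFreeGroup (Fin k)).map (trE h01 m), i0, ?_⟩
  rw [FreeGroupBasis.map_apply, FreeGroupBasis.ofFreeGroup_apply]
  change tr i0 i1 m (of i0) = _
  rw [tr, FreeGroup.lift_apply_of, if_pos rfl]

lemma class_injective {i0 i1 : Fin k} (h01 : i1 ≠ i0) :
    Function.Injective (fun m : ℕ => ConjClasses.mk (of i0 * of i1 ^ (m : ℤ) :
      FreeGroup (Fin k))) := by
  intro m n h
  simp only at h
  rw [ConjClasses.mk_eq_mk_iff_isConj, isConj_iff] at h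
  obtain ⟨u, hu⟩ := h
  let f : FreeGroup (Fin k) →* Multiplicative ℤ :=
    FreeGroup.lift (fun j => if j = i1 then Multiplicative.ofAdd 1 else 1)
  have hf : ∀ m : ℤ, f (of i0 * of i1 ^ m) = Multiplicative.ofAdd m := by
    intro m
    rw [_root_.map_mul, map_zpow]
    simp only [f, FreeGroup.lift_apply_of]
    rw [if_neg h01.symm, if_pos trivial, one_mul, ← ofAdd_zsmul]
    simp
  have h1 := congrArg f hu
  rw [_root_.map_mul, _root_.map_mul, _root_.map_inv, mul_comm (f u), mul_inv_cancel_right, hf,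
    hf] at h1
  exact_mod_cast Multiplicative.ofAdd.injective h1

lemma one_le_gamma (hk : 2 ≤ k) (S : Finset (FreeGroup (Fin k)))
    (hS : Subgroup.closure (S : Set (FreeGroup (Fin k))) = ⊤) :
    1 ≤ gamma (S : Set (FreeGroup (Fin k))) := by
  classical
  let i0 : Fin k := ⟨0, by omega⟩
  let i1 : Fin k := ⟨1, by omega⟩
  have h01 : i1 ≠ i0 := by simp [i0, i1]
  unfold gamma
  refine Filter.le_limsup_of_frequently_le ?_ (by isBoundedDefault)
  have hfr : ∃ᶠ N : ℕ in atTop, (primClasses (S : Set (FreeGroup (Fin k))) N).Nonempty := by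
    intro hev
    obtain ⟨B, hB⟩ := Filter.eventually_atTop.mp hev
    -- all primitive classes are short
    have hshort : ∀ c, (∃ g : FreeGroup (Fin k), IsPrimitive g ∧ ConjClasses.mk g = c) →
        classLen (S : Set (FreeGroup (Fin k))) c ≤ B := by
      intro c hc
      by_contra hlt
      push Not at hlt
      exact hB _ hlt.le ⟨c, hc, rfl⟩
    let T : Set (FreeGroup (Fin k)) := {s | s ∈ S ∨ s⁻¹ ∈ S}
    have hT : T.Finite := by
      have : T ⊆ (S : Set (FreeGroup (Fin k))) ∪ (fun s => s⁻¹) '' (S : Set _) := by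
        rintro s (h | h)
        · exact Or.inl h
        · exact Or.inr ⟨s⁻¹, h, inv_inv s⟩
      exact Set.Finite.subset (S.finite_toSet.union (S.finite_toSet.image _)) this
    have : Finite T := hT
    have hfin : (Set.image (fun l : List T => ConjClasses.mk ((l.map Subtype.val).prod))
        {l : List T | l.length ≤ B}).Finite := (List.finite_length_le T B).image _
    have hinf : (Set.range (fun m : ℕ => ConjClasses.mk (of i0 * of i1 ^ (m : ℤ) :
      FreeGroup (Fin k)))).Infinite := Set.infinite_range_of_injective (class_injective h01)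
    apply hinf
    refine hfin.subset ?_
    rintro c ⟨m, rfl⟩
    obtain ⟨g, hg, hgl⟩ := classLen_spec (S : Set (FreeGroup (Fin k)))
      (ConjClasses.mk (of i0 * of i1 ^ (m : ℤ) : FreeGroup (Fin k)))
    have h1 := hshort _ ⟨_, primitive_tr h01 (m : ℤ), rfl⟩
    obtain ⟨l, hl1, hl2, hl3⟩ := wordLen_spec hS g
    refine ⟨l.attach.map (fun s => (⟨s.1, by simpa [T] using hl1 s.1 s.2⟩ : T)), ?_, ?_⟩
    · simp only [Set.mem_ofPred_eq, List.length_map, List.length_attach]
      omega
    · simp only [List.map_map]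
      have : (l.attach.map (Subtype.val ∘ fun s => (⟨s.1, by simpa [T] using hl1 s.1 s.2⟩ : T)))
          = l := by
        have : (Subtype.val ∘ fun s : {x // x ∈ l} =>
            (⟨s.1, by simpa [T] using hl1 s.1 s.2⟩ : T)) = Subtype.val := rfl
        rw [this, List.attach_map_subtype_val]
      rw [this, hl2]
      exact hg
  refine (hfr.and_eventually (Filter.eventually_gt_atTop 0)).mono ?_
  rintro N ⟨hne, hN⟩
  apply ENNReal.one_le_rpow
  · have h1 : (1 : ℕ∞) ≤ (primClasses (S : Set (FreeGroup (Fin k))) N).encard :=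
      Set.one_le_encard_iff_nonempty.mpr hne
    have := ENat.toENNReal_le.mpr h1
    simpa using this
  · positivity

/-! ### the main theorem -/

theorem main (hk : 2 ≤ k) :
    ⨅ S : {S : Finset (FreeGroup (Fin k)) // Subgroup.closure (S : Set (FreeGroup (Fin k))) = ⊤},
      gamma (S.1 : Set (FreeGroup (Fin k))) = 1 := by
  classical
  apply le_antisymm
  · let i0 : Fin k := ⟨0, by omega⟩
    let i1 : Fin k := ⟨1, by omega⟩
    have h01 : i1 ≠ i0 := by simp [i0, i1]
    obtain ⟨V, hV⟩ := exists_V hk i0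
    have hle : ∀ M : ℕ, 0 < M →
        ⨅ S : {S : Finset (FreeGroup (Fin k)) //
          Subgroup.closure (S : Set (FreeGroup (Fin k))) = ⊤},
          gamma (S.1 : Set (FreeGroup (Fin k))) ≤
        ENNReal.ofReal (((2 * k + 1 : ℕ) : ℝ) ^ ((2 * (2 * V.length + 1) : ℕ) / (M : ℝ))) := by
      intro M hM
      have hcoe : ((Finset.univ.image (gen i0 i1 V M) : Finset (FreeGroup (Fin k))) :
          Set (FreeGroup (Fin k))) = Set.range (gen i0 i1 V M) := by
        simp
      have hcl : Subgroup.closure ((Finset.univ.image (gen i0 i1 V M) :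
          Finset (FreeGroup (Fin k))) : Set (FreeGroup (Fin k))) = ⊤ := by
        rw [hcoe]
        exact closure_gen h01
      refine (iInf_le _ ⟨Finset.univ.image (gen i0 i1 V M), hcl⟩).trans ?_
      change gamma ((Finset.univ.image (gen i0 i1 V M) : Finset (FreeGroup (Fin k))) :
          Set (FreeGroup (Fin k))) ≤ _
      rw [hcoe]
      exact gamma_le hV h01 hM
    have hlim : Tendsto (fun M : ℕ => ENNReal.ofReal (((2 * k + 1 : ℕ) : ℝ) ^
        ((2 * (2 * V.length + 1) : ℕ) / (M : ℝ)))) atTop (𝓝 1) := by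
      have h1 : Tendsto (fun M : ℕ => (((2 * (2 * V.length + 1) : ℕ) : ℝ) / (M : ℝ))) atTop
          (𝓝 0) := tendsto_const_div_atTop_nhds_zero_nat _
      have h2 : Tendsto (fun M : ℕ => ((2 * k + 1 : ℕ) : ℝ) ^
          (((2 * (2 * V.length + 1) : ℕ) : ℝ) / (M : ℝ))) atTop
          (𝓝 (((2 * k + 1 : ℕ) : ℝ) ^ (0 : ℝ))) := by
        exact ((Real.continuous_const_rpow (by positivity)).tendsto 0).comp h1
      rw [Real.rpow_zero] at h2
      have h3 := ENNReal.tendsto_ofReal h2
      rwa [ENNReal.ofReal_one] at h3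
    apply ge_of_tendsto hlim
    filter_upwards [Filter.eventually_gt_atTop 0] with M hM
    exact hle M hM
  · apply le_iInf
    rintro ⟨S, hS⟩
    exact one_le_gamma hk S hS

end Pool.Agent.Q8.PG
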