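import Pool.Agent.Q8.PG.Words

/-!
Words made of the pieces `V`, `V⁻¹` and short words.
-/

namespace Pool.Agent.Q8.PG

open FreeGroup

variable {k : ℕ}

/-- letters -/
abbrev Le (k : ℕ) := Fin k × Bool

/-- the word `V` -/
structure VOK (i0 : Fin k) (V : List (Le k)) : Prop where
  len : 4 ≤ V.length
  red : IsReduced V
  hd : V.head? = some (i0, true)
  lst : V.getLast? = some (i0, true)
  full : ∀ p q : Le k, (p.1 = q.1 → p.2 = q.2) → [p, q] <:+: V

lemma exists_avoid (hk : 2 ≤ k) (a b : Le k) : ∃ r : Le k, r ≠ a ∧ r ≠ b := by
  have h : ({a, b} : Finset (Le k)).card < Fintype.card (Le k) := by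
    have h1 : ({a, b} : Finset (Le k)).card ≤ 2 := Finset.card_le_two
    have h2 : Fintype.card (Le k) = k * 2 := by simp [Le]
    omega
  obtain ⟨r, hr⟩ : ∃ r : Le k, r ∉ ({a, b} : Finset (Le k)) := by
    by_contra hc
    push Not at hc
    have : ({a, b} : Finset (Le k)) = Finset.univ := Finset.eq_univ_iff_forall.mpr hc
    rw [this, Finset.card_univ] at h
    exact lt_irrefl _ h
  simp only [Finset.mem_insert, Finset.mem_singleton, not_or] at hr
  exact ⟨r, hr.1, hr.2⟩

lemma red_of_ne {a b : Le k} (h : a ≠ (b.1, !b.2)) (h1 : a.1 = b.1) : a.2 = b.2 := by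
  by_contra hc
  apply h
  refine Prod.ext h1 ?_
  change a.2 = !b.2
  cases ha : a.2 <;> cases hb : b.2 <;> simp_all

lemma exists_V (hk : 2 ≤ k) (i0 : Fin k) : ∃ V, VOK i0 V := by
  classical
  have key : ∀ s : Finset (Le k × Le k), (∀ x ∈ s, x.1.1 = x.2.1 → x.1.2 = x.2.2) →
      ∃ V : List (Le k), 4 ≤ V.length ∧ IsReduced V ∧ V.head? = some (i0, true) ∧
        V.getLast? = some (i0, true) ∧ ∀ x ∈ s, [x.1, x.2] <:+: V := by
    intro s
    induction s using Finset.induction_on with
    | empty =>
      intro _
      refine ⟨[(i0, true), (i0, true), (i0, true), (i0, true)], by simp, ?_, by simp, by simp,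
        by simp⟩
      simp [FreeGroup.IsReduced]
    | insert x s hx ih =>
      intro h
      obtain ⟨V, h1, h2, h3, h4, h5⟩ := ih (fun y hy => h y (Finset.mem_insert_of_mem hy))
      have hxr := h x (Finset.mem_insert_self _ _)
      obtain ⟨p, q⟩ := x
      obtain ⟨r, hr1, hr2⟩ := exists_avoid hk (i0, false) (p.1, !p.2)
      obtain ⟨t, ht1, ht2⟩ := exists_avoid hk (i0, false) (q.1, !q.2)
      refine ⟨V ++ [r, p, q, t, (i0, true)], by simp, ?_, ?_, ?_, ?_⟩
      · unfold FreeGroup.IsReduced
        rw [List.isChain_append]
        refine ⟨h2, ?_, ?_⟩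
        · simp only [List.isChain_cons_cons, List.isChain_singleton, and_true]
          exact ⟨red_of_ne hr2, hxr, fun h => (red_of_ne ht2 h.symm).symm,
            fun h => red_of_ne (b := (i0, true)) ht1 h⟩
        · intro u hu v hv
          rw [h4] at hu
          simp at hu hv
          subst hu; subst hv
          exact fun h => (red_of_ne (b := (i0, true)) hr1 h.symm).symm
      · have : V ≠ [] := by rintro rfl; simp at h1
        rw [List.head?_append_of_ne_nil _ this, h3]
      · simp
      · intro x hx
        rcases Finset.mem_insert.mp hx with rfl | hx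
        · exact ⟨V ++ [r], [t, (i0, true)], by simp⟩
        · exact (h5 x hx).trans ⟨[], [r, p, q, t, (i0, true)], by simp⟩
  obtain ⟨V, h1, h2, h3, h4, h5⟩ := key
    (Finset.univ.filter fun x : Le k × Le k => x.1.1 = x.2.1 → x.1.2 = x.2.2)
    (fun x hx => (Finset.mem_filter.mp hx).2)
  exact ⟨V, h1, h2, h3, h4, fun p q hpq => h5 (p, q)
    (Finset.mem_filter.mpr ⟨Finset.mem_univ _, hpq⟩)⟩

/-- the short words -/
def Yw (i0 i1 : Fin k) (i : Fin k) (b : Bool) : List (Le k) :=
  if i = i0 then [(i1, b), (i0, b), (i1, b)] else [(i, b)]

/-- the pieces -/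
def pw (i0 i1 : Fin k) (V : List (Le k)) : Option (Fin k) × Bool → List (Le k)
  | (none, true) => V
  | (none, false) => invRev V
  | (some i, b) => Yw i0 i1 i b

/-- allowed neighbours -/
def ok : Option (Fin k) × Bool → Option (Fin k) × Bool → Prop
  | (none, b), (none, b') => b = b'
  | (some _, _), (some _, _) => False
  | _, _ => True

/-- the word of a sequence of pieces -/
def flat (i0 i1 : Fin k) (V : List (Le k)) (ps : List (Option (Fin k) × Bool)) : List (Le k) :=
  (ps.map (pw i0 i1 V)).flatten

/-- sequences of pieces without cancellation -/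
def Good (ps : List (Option (Fin k) × Bool)) : Prop := List.IsChain ok ps

/-- words without `V` and `V⁻¹` -/
def Avoid (V : List (Le k)) (x : List (Le k)) : Prop := ¬ V <:+: x ∧ ¬ invRev V <:+: x

lemma Avoid.mono {V x y : List (Le k)} (h : Avoid V y) (hx : x <:+: y) : Avoid V x :=
  ⟨fun h' => h.1 (h'.trans hx), fun h' => h.2 (h'.trans hx)⟩

section

variable {i0 i1 : Fin k} {V : List (Le k)}

lemma Yw_length (i : Fin k) (b : Bool) : (Yw i0 i1 i b).length ≤ 3 := by
  unfold Yw
  split <;> simp

lemma pw_none_length (b : Bool) : (pw i0 i1 V (none, b)).length = V.length := by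
  cases b <;> simp [pw]

lemma pw_none_not_avoid (b : Bool) {x : List (Le k)} (h : pw i0 i1 V (none, b) <:+: x) :
    ¬ Avoid V x := by
  rintro ⟨h1, h2⟩
  cases b
  · exact h2 h
  · exact h1 h

lemma invRev_head? (w : List (Le k)) :
    (invRev w).head? = w.getLast?.map (fun p => (p.1, !p.2)) := by
  simp [invRev]

lemma invRev_getLast? (w : List (Le k)) :
    (invRev w).getLast? = w.head?.map (fun p => (p.1, !p.2)) := by
  simp [invRev]

lemma pw_none_head (hV : VOK i0 V) (b : Bool) :
    (pw i0 i1 V (none, b)).head? = some (i0, b) := by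
  cases b
  · simp only [pw]
    rw [invRev_head?, hV.lst]; rfl
  · exact hV.hd

lemma pw_none_last (hV : VOK i0 V) (b : Bool) :
    (pw i0 i1 V (none, b)).getLast? = some (i0, b) := by
  cases b
  · simp only [pw]
    rw [invRev_getLast?, hV.hd]; rfl
  · exact hV.lst

lemma Yw_head (h01 : i1 ≠ i0) (i : Fin k) (b : Bool) :
    ∀ p ∈ (Yw i0 i1 i b).head?, p.1 ≠ i0 := by
  intro p hp
  unfold Yw at hp
  split at hp
  · simp at hp; subst hp; exact h01
  · simp at hp; subst hp; assumption

lemma Yw_last (h01 : i1 ≠ i0) (i : Fin k) (b : Bool) :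
    ∀ p ∈ (Yw i0 i1 i b).getLast?, p.1 ≠ i0 := by
  intro p hp
  unfold Yw at hp
  split at hp
  · simp at hp; subst hp; exact h01
  · simp at hp; subst hp; assumption

lemma isReduced_invRev {w : List (Le k)} (h : IsReduced w) : IsReduced (invRev w) := by
  rw [isReduced_iff_reduce_eq] at h ⊢
  rw [reduce_invRev, h]

lemma pw_reduced (hV : VOK i0 V) (h01 : i1 ≠ i0) (p : Option (Fin k) × Bool) :
    IsReduced (pw i0 i1 V p) := by
  obtain ⟨o, b⟩ := p
  cases o with
  | none =>
    cases b
    · exact isReduced_invRev hV.red
    · exact hV.red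
  | some i =>
    simp only [pw, Yw]
    split
    · simp [FreeGroup.IsReduced, h01, h01.symm]
    · simp [FreeGroup.IsReduced]

lemma pw_ne_nil (hV : VOK i0 V) (p : Option (Fin k) × Bool) : pw i0 i1 V p ≠ [] := by
  obtain ⟨o, b⟩ := p
  intro h
  cases o with
  | none =>
    have := pw_none_length (i0 := i0) (i1 := i1) (V := V) b
    rw [h, List.length_nil] at this
    have := hV.len
    omega
  | some i =>
    simp only [pw, Yw] at h
    split at h <;> simp at h

lemma flat_reduced (hV : VOK i0 V) (h01 : i1 ≠ i0) {ps : List (Option (Fin k) × Bool)}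
    (h : Good ps) : IsReduced (flat i0 i1 V ps) := by
  unfold FreeGroup.IsReduced flat
  rw [List.isChain_flatten]
  · refine ⟨?_, ?_⟩
    · intro l hl
      obtain ⟨p, _, rfl⟩ := List.mem_map.mp hl
      exact pw_reduced hV h01 p
    · rw [List.isChain_map]
      refine List.IsChain.imp ?_ h
      rintro ⟨o, b⟩ ⟨o', b'⟩ hok x hx y hy hxy
      cases o with
      | none =>
        rw [pw_none_last hV] at hx
        simp at hx
        subst hx
        cases o' with
        | none =>
          rw [pw_none_head hV] at hy
          simp at hy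
          subst hy
          exact hok
        | some j => exact absurd hxy.symm (Yw_head h01 j b' y hy)
      | some i =>
        cases o' with
        | none =>
          rw [pw_none_head hV] at hy
          simp at hy
          subst hy
          exact absurd hxy (Yw_last h01 i b x hx)
        | some j => exact hok.elim
  · intro h
    obtain ⟨p, _, hp⟩ := List.mem_map.mp h
    exact pw_ne_nil hV p hp

lemma flat_cons (p : Option (Fin k) × Bool) (ps : List (Option (Fin k) × Bool)) :
    flat i0 i1 V (p :: ps) = pw i0 i1 V p ++ flat i0 i1 V ps := rfl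

lemma flat_append (ps qs : List (Option (Fin k) × Bool)) :
    flat i0 i1 V (ps ++ qs) = flat i0 i1 V ps ++ flat i0 i1 V qs := by
  simp [flat]

/-- an avoiding prefix of a word starting with a piece `V^{±1}` -/
lemma prefix_none {b : Bool} {r x : List (Le k)} (hx : x <+: pw i0 i1 V (none, b) ++ r)
    (ha : Avoid V x) : x.length + 1 ≤ V.length := by
  rcases List.prefix_or_prefix_of_prefix hx (List.prefix_append _ r) with h | h
  · have h1 := h.length_le
    rw [pw_none_length] at h1
    rcases Nat.lt_or_ge x.length V.length with h2 | h2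
    · exact h2
    · exfalso
      have : x = pw i0 i1 V (none, b) := by
        apply h.eq_of_length
        rw [pw_none_length]; omega
      exact pw_none_not_avoid (i0 := i0) (i1 := i1) b (by rw [this]) ha
  · exact absurd ha (pw_none_not_avoid b h.isInfix)

lemma prefix_bound (hV : VOK i0 V) {ps : List (Option (Fin k) × Bool)} (h : Good ps)
    {x : List (Le k)} (hx : x <+: flat i0 i1 V ps) (ha : Avoid V x) :
    x.length ≤ V.length + 2 := by
  cases ps with
  | nil =>
    have : x = [] := by simpa [flat] using hx
    simp [this]
  | cons p ps =>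
    rw [flat_cons] at hx
    obtain ⟨o, b⟩ := p
    cases o with
    | none =>
      have := prefix_none hx ha
      omega
    | some i =>
      have hlen : (pw i0 i1 V (some i, b)).length ≤ 3 := Yw_length i b
      rcases List.prefix_or_prefix_of_prefix hx (List.prefix_append _ _) with h' | h'
      · have := h'.length_le
        have := hV.len
        omega
      · obtain ⟨x', rfl⟩ := h'
        rw [List.prefix_append_right_inj] at hx
        have ha' : Avoid V x' := ha.mono ⟨pw i0 i1 V (some i, b), [], by simp⟩
        rw [List.length_append]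
        cases ps with
        | nil =>
          have : x' = [] := by simpa [flat] using hx
          simp [this]
          have := hV.len
          omega
        | cons q ps =>
          rw [flat_cons] at hx
          obtain ⟨o', b'⟩ := q
          cases o' with
          | none =>
            have := prefix_none hx ha'
            omega
          | some j =>
            have := (List.isChain_cons_cons.mp h).1
            exact this.elim

lemma infix_bound (hV : VOK i0 V) {ps : List (Option (Fin k) × Bool)} (h : Good ps)
    {x : List (Le k)} (hx : x <:+: flat i0 i1 V ps) (ha : Avoid V x) :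
    x.length ≤ 2 * V.length + 1 := by
  have hL := hV.len
  induction ps with
  | nil =>
    have : x = [] := by simpa [flat] using hx
    simp [this]
  | cons p ps ih =>
    rw [flat_cons] at hx
    have hg : Good ps := List.IsChain.tail h
    rcases List.infix_append_iff.mp hx with h1 | h1 | ⟨l1, l2, rfl, h1, h2⟩
    · obtain ⟨o, b⟩ := p
      cases o with
      | none =>
        have := h1.length_le
        rw [pw_none_length] at this
        omega
      | some i =>
        have h3 := h1.length_le
        have hlen : (pw i0 i1 V (some i, b)).length ≤ 3 := Yw_length i b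
        omega
    · exact ih hg h1
    · have ha2 : Avoid V l2 := ha.mono ⟨l1, [], by simp⟩
      have ha1 : Avoid V l1 := ha.mono ⟨[], l2, by simp⟩
      have hb := prefix_bound hV hg h2 ha2
      rw [List.length_append]
      obtain ⟨o, b⟩ := p
      cases o with
      | none =>
        have h3 := h1.length_le
        rw [pw_none_length] at h3
        rcases Nat.lt_or_ge l1.length V.length with h4 | h4
        · omega
        · exfalso
          have : l1 = pw i0 i1 V (none, b) := by
            apply h1.eq_of_length
            rw [pw_none_length]; omega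
          exact pw_none_not_avoid (i0 := i0) (i1 := i1) b (by rw [this]) ha1
      | some i =>
        have h3 := h1.length_le
        have hlen : (pw i0 i1 V (some i, b)).length ≤ 3 := Yw_length i b
        omega

/-- the property of the words in the cover -/
def Sh (V : List (Le k)) (z : List (Le k)) : Prop :=
  ∀ x, x <:+: z → Avoid V x → x.length ≤ 2 * V.length + 1

lemma sh_nil : Sh V [] := by
  intro x hx _
  have : x = [] := by simpa using hx
  simp [this]

lemma sh_infix (u v : List (Le k)) (h : u <:+: v) (hv : Sh V v) : Sh V u :=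
  fun x hx ha => hv x (hx.trans h) ha

lemma sh_flat (hV : VOK i0 V) {ps : List (Option (Fin k) × Bool)} (h : Good ps) :
    Sh V (flat i0 i1 V ps) := fun _ hx ha => infix_bound hV h hx ha

lemma cov_sh_length {m : ℕ} {w : List (Le k)} (h : Cov (Sh V) m w) (ha : Avoid V w) :
    w.length ≤ m * (2 * V.length + 1) := by
  induction m generalizing w with
  | zero =>
    have : w = [] := h
    simp [this]
  | succ m ih =>
    obtain ⟨u, v, rfl, hu, hv⟩ := h
    have h1 := hu u (List.infix_refl u) (ha.mono ⟨[], v, by simp⟩)
    have h2 := ih hv (ha.mono ⟨u, [], by simp⟩)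
    rw [List.length_append, Nat.succ_mul]
    omega

end

end Pool.Agent.Q8.PG
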