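import Mathlib

/-!
Words in free groups: covers by few pieces, products of reduced words.
-/

namespace Pool.Agent.Q8.PG

open FreeGroup

/-- a chain restricts to subwords -/
lemma chain_mono {A : Type*} {R : A → A → Prop} {l l1 : List A} (h : List.IsChain R l)
    (h' : l1 <:+: l) : List.IsChain R l1 := by
  obtain ⟨s, t, rfl⟩ := h'
  exact h.left_of_append.right_of_append

/-- subwords of reduced words are reduced -/
lemma red_mono {α : Type*} {l l1 : List (α × Bool)} (h : IsReduced l) (h' : l1 <:+: l) :
    IsReduced l1 := chain_mono h h'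

section split

variable {α : Type*} [DecidableEq α]

/-- The reduced form of a product is a prefix of the first followed by a suffix of the second. -/
lemma exists_split (l2 : List (α × Bool)) : ∀ (l1 : List (α × Bool)), IsReduced l1 →
    IsReduced l2 → ∃ a b c, l1 = a ++ b ∧ l2 = invRev b ++ c ∧ IsReduced (a ++ c) := by
  induction l2 with
  | nil =>
    intro l1 h1 _
    exact ⟨l1, [], [], by simp, by simp, by simpa using h1⟩
  | cons y t ih =>
    intro l1 h1 h2
    rcases List.eq_nil_or_concat l1 with rfl | ⟨l1', x, rfl⟩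
    · exact ⟨[], [], y :: t, by simp, by simp, by simpa using h2⟩
    · by_cases hxy : x.1 = y.1 ∧ x.2 ≠ y.2
      · have h1' : IsReduced l1' := red_mono h1 ⟨[], [x], by simp⟩
        have h2' : IsReduced t := red_mono h2 ⟨[y], [], by simp⟩
        obtain ⟨a, b, c, e1, e2, e3⟩ := ih l1' h1' h2'
        refine ⟨a, b ++ [x], c, by rw [e1]; simp, ?_, e3⟩
        have hy : y = (x.1, !x.2) := by
          apply Prod.ext
          · exact hxy.1.symm
          · cases hx : x.2 <;> cases hy : y.2 <;> simp_all
        rw [e2, hy]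
        simp [invRev]
      · refine ⟨l1' ++ [x], [], y :: t, by simp, by simp, ?_⟩
        have hr : x.1 = y.1 → x.2 = y.2 := by
          intro h
          by_contra hc
          exact hxy ⟨h, hc⟩
        rw [List.concat_eq_append] at h1
        unfold FreeGroup.IsReduced at h1 h2 ⊢
        rw [List.isChain_append]
        refine ⟨h1, h2, ?_⟩
        intro u hu v hv
        simp at hu hv
        subst hu; subst hv
        exact hr

lemma toWord_mul_split {x y : FreeGroup α} :
    ∃ a b c, x.toWord = a ++ b ∧ y.toWord = invRev b ++ c ∧ (x * y).toWord = a ++ c := by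
  obtain ⟨a, b, c, h1, h2, h3⟩ := exists_split y.toWord x.toWord isReduced_toWord
    isReduced_toWord
  refine ⟨a, b, c, h1, h2, ?_⟩
  have e : x * y = FreeGroup.mk (a ++ c) := by
    rw [← mk_toWord (x := x), ← mk_toWord (x := y), h1, h2, ← mul_mk, ← mul_mk, ← mul_mk,
      ← inv_mk]
    group
  rw [e, toWord_mk, h3.reduce_eq]

end split

section cov

variable {A : Type*}

/-- `w` is a concatenation of at most `m` words with property `P` -/
def Cov (P : List A → Prop) : ℕ → List A → Prop
  | 0, w => w = []
  | m + 1, w => ∃ u v, w = u ++ v ∧ P u ∧ Cov P m v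

variable {P : List A → Prop}

lemma cov_nil (h0 : P []) (m : ℕ) : Cov P m [] := by
  induction m with
  | zero => rfl
  | succ m ih => exact ⟨[], [], rfl, h0, ih⟩

lemma cov_one {w : List A} (h : P w) : Cov P 1 w := ⟨w, [], by simp, h, rfl⟩

lemma cov_append (h0 : P []) {m m' : ℕ} {u v : List A} (hu : Cov P m u) (hv : Cov P m' v) :
    Cov P (m + m') (u ++ v) := by
  induction m generalizing u with
  | zero =>
    have : u = [] := hu
    subst this
    simpa using hv
  | succ m ih =>
    obtain ⟨x, y, rfl, hx, hy⟩ := hu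
    rw [Nat.succ_add_eq_add_succ, Nat.add_succ]
    exact ⟨x, y ++ v, by simp, hx, ih hy⟩

lemma cov_mono (h0 : P []) {m m' : ℕ} (h : m ≤ m') {w : List A} (hw : Cov P m w) :
    Cov P m' w := by
  obtain ⟨d, rfl⟩ := Nat.exists_eq_add_of_le h
  have := cov_append h0 hw (cov_nil h0 d)
  simpa using this

lemma cov_prefix (h0 : P []) (hP : ∀ u v, u <:+: v → P v → P u) {m : ℕ} {u v : List A}
    (h : Cov P m (u ++ v)) : Cov P m u := by
  induction m generalizing u v with
  | zero =>
    have : u ++ v = [] := h
    rw [List.append_eq_nil_iff] at this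
    exact this.1
  | succ m ih =>
    obtain ⟨z, r, e, hz, hr⟩ := h
    rcases List.append_eq_append_iff.mp e with ⟨s, e1, e2⟩ | ⟨s, e1, e2⟩
    · -- z = u ++ s
      refine ⟨u, [], by simp, hP u z ⟨[], s, by simp [e1]⟩ hz, cov_nil h0 m⟩
    · -- u = z ++ s, r = s ++ v
      rw [e2] at hr
      exact ⟨z, s, e1, hz, ih hr⟩

lemma cov_suffix (h0 : P []) (hP : ∀ u v, u <:+: v → P v → P u) {m : ℕ} {u v : List A}
    (h : Cov P m (u ++ v)) : Cov P m v := by
  induction m generalizing u v with
  | zero =>
    have : u ++ v = [] := h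
    rw [List.append_eq_nil_iff] at this
    exact this.2
  | succ m ih =>
    obtain ⟨z, r, e, hz, hr⟩ := h
    rcases List.append_eq_append_iff.mp e with ⟨s, e1, e2⟩ | ⟨s, e1, e2⟩
    · -- z = u ++ s, v = s ++ r
      exact ⟨s, r, e2, hP s z ⟨u, [], by simp [e1]⟩ hz, hr⟩
    · rw [e2] at hr
      exact cov_mono h0 (Nat.le_succ m) (ih hr)

lemma cov_infix (h0 : P []) (hP : ∀ u v, u <:+: v → P v → P u) {m : ℕ} {u w : List A}
    (hu : u <:+: w) (h : Cov P m w) : Cov P m u := by
  obtain ⟨s, t, rfl⟩ := hu
  exact cov_suffix h0 hP (cov_prefix h0 hP h)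

end cov

end Pool.Agent.Q8.PG
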